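import Mathlib

namespace Pool.Agent.R957.Par

open Filter
open scoped Topology

lemma pow_sub_le (m : ℕ) (x y : ℝ) (hy : 0 ≤ y) (hxy : y ≤ x) :
    x ^ (m + 1) - y ^ (m + 1) ≤ (m + 1) * x ^ m * (x - y) := by
  induction m with
  | zero => simp
  | succ m ih =>
    have hx : 0 ≤ x := hy.trans hxy
    have h1 : y ^ (m + 1) ≤ x ^ (m + 1) := pow_le_pow_left₀ hy hxy _
    have h2 : x ^ (m + 1 + 1) - y ^ (m + 1 + 1)
        = x * (x ^ (m + 1) - y ^ (m + 1)) + y ^ (m + 1) * (x - y) := by ring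
    rw [h2]
    have h3 := mul_le_mul_of_nonneg_left ih hx
    have h4 := mul_le_mul_of_nonneg_right h1 (sub_nonneg.2 hxy)
    calc x * (x ^ (m + 1) - y ^ (m + 1)) + y ^ (m + 1) * (x - y)
        ≤ x * ((m + 1) * x ^ m * (x - y)) + x ^ (m + 1) * (x - y) := add_le_add h3 h4
      _ = ((m + 1 : ℕ) + 1) * x ^ (m + 1) * (x - y) := by push_cast; ring

/-- If a summable nonnegative sequence `q` satisfies `∑_{s ≥ t} q s ≤ (∑ q) q t` for all `t`, then
`∑ q ≤ k ∑ q^k`. -/
theorem tail_ineq (q : ℕ → ℝ) (hq : ∀ t, 0 ≤ q t) (hs : Summable q)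
    (m : ℕ) (hsk : Summable fun t => q t ^ (m + 1))
    (hR : ∀ t, ∑' s, q (t + s) ≤ (∑' s, q s) * q t) :
    ∑' t, q t ≤ (m + 1) * ∑' t, q t ^ (m + 1) := by
  set mu := ∑' t, q t with hmu
  set R : ℕ → ℝ := fun t => ∑' s, q (t + s) with hRdef
  have hmu0 : 0 ≤ mu := tsum_nonneg hq
  rcases hmu0.eq_or_lt with h0 | hpos
  · rw [← h0]
    have : 0 ≤ ∑' t, q t ^ (m + 1) := tsum_nonneg fun t => pow_nonneg (hq t) _
    positivity
  have hR0 : ∀ t, 0 ≤ R t := fun t => tsum_nonneg fun s => hq _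
  have hRs : ∀ t, R t = q t + R (t + 1) := by
    intro t
    have h1 : Summable fun s => q (t + s) := by
      simpa [add_comm] using (summable_nat_add_iff t).2 hs
    simp only [hRdef]
    rw [h1.tsum_eq_zero_add, add_zero]
    congr 1
    apply tsum_congr
    intro s
    congr 1
    ring
  have hRlim : Tendsto R atTop (𝓝 0) := by
    have := tendsto_sum_nat_add q
    simpa [hRdef, add_comm] using this
  -- telescoping
  have hstep : ∀ t, R t ^ (m + 1) - R (t + 1) ^ (m + 1) ≤ (m + 1) * mu ^ m * q t ^ (m + 1) := by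
    intro t
    have h1 := pow_sub_le m (R t) (R (t + 1)) (hR0 _) (by rw [hRs t]; linarith [hq t])
    have h2 : R t - R (t + 1) = q t := by rw [hRs t]; ring
    rw [h2] at h1
    have h3 : R t ^ m ≤ (mu * q t) ^ m := pow_le_pow_left₀ (hR0 t) (hR t) m
    calc R t ^ (m + 1) - R (t + 1) ^ (m + 1) ≤ (m + 1) * R t ^ m * q t := h1
      _ ≤ (m + 1) * (mu * q t) ^ m * q t := by
          apply mul_le_mul_of_nonneg_right _ (hq t)
          exact mul_le_mul_of_nonneg_left h3 (by positivity)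
      _ = (m + 1) * mu ^ m * q t ^ (m + 1) := by rw [mul_pow]; ring
  have hsum : ∀ N, R 0 ^ (m + 1) - R N ^ (m + 1)
      ≤ (m + 1) * mu ^ m * ∑ t ∈ Finset.range N, q t ^ (m + 1) := by
    intro N
    have h1 := Finset.sum_le_sum fun t (_ : t ∈ Finset.range N) => hstep t
    rw [Finset.sum_range_sub' (fun t => R t ^ (m + 1)) N, ← Finset.mul_sum] at h1
    exact h1
  have hlim1 : Tendsto (fun N => R 0 ^ (m + 1) - R N ^ (m + 1)) atTop (𝓝 (R 0 ^ (m + 1) - 0)) := by
    apply tendsto_const_nhds.sub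
    have := hRlim.pow (m + 1)
    simpa using this
  have hlim2 : Tendsto (fun N => (m + 1) * mu ^ m * ∑ t ∈ Finset.range N, q t ^ (m + 1)) atTop
      (𝓝 ((m + 1) * mu ^ m * ∑' t, q t ^ (m + 1))) :=
    (hsk.hasSum.tendsto_sum_nat).const_mul _
  have hfin := le_of_tendsto_of_tendsto' hlim1 hlim2 hsum
  have hR00 : R 0 = mu := by
    simp only [hRdef, hmu]
    apply tsum_congr
    intro s
    rw [zero_add]
  rw [hR00, sub_zero] at hfin
  have h2 : mu ^ m * mu ≤ mu ^ m * ((m + 1) * ∑' t, q t ^ (m + 1)) := by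
    calc mu ^ m * mu = mu ^ (m + 1) := by ring
      _ ≤ _ := hfin
      _ = _ := by ring
  exact le_of_mul_le_mul_left h2 (pow_pos hpos m)

end Pool.Agent.R957.Par
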