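import Mathlib

/-! Simple random walks on a finite directed graph, hitting times of one and of `k` parallel
independent walks. -/

namespace Pool.Agent.R957.Par

open MeasureTheory
open scoped ENNReal

open Classical in
/-- out-neighbours of `u` -/
noncomputable def outN {n : ℕ} (G : Digraph (Fin n)) (u : Fin n) : Finset (Fin n) :=
  Finset.univ.filter fun w => G.Adj u w

open Classical in
/-- law of one step from `u`: uniform on the out-neighbours -/
noncomputable def stepLaw {n : ℕ} (G : Digraph (Fin n)) (u : Fin n) : PMF (Fin n) :=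
  if h : (outN G u).Nonempty then PMF.uniformOfFinset (outN G u) h else PMF.pure u

/-- law of a random map `V → V` with independent coordinates of law `stepLaw` -/
noncomputable def mapLaw {n : ℕ} (G : Digraph (Fin n)) : Measure (Fin n → Fin n) :=
  Measure.pi fun w => (stepLaw G w).toMeasure

/-- law of an i.i.d. sequence of random maps -/
noncomputable def law {n : ℕ} (G : Digraph (Fin n)) : Measure (ℕ → Fin n → Fin n) :=
  Measure.infinitePi fun _ => mapLaw G

/-- the walk started at `u` driven by the sequence of maps `om` -/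
def walk {n : ℕ} (u : Fin n) (om : ℕ → Fin n → Fin n) : ℕ → Fin n
  | 0 => u
  | t + 1 => om t (walk u om t)

/-- hitting time of `v` by the walk started at `u` -/
noncomputable def hit {n : ℕ} (u v : Fin n) (om : ℕ → Fin n → Fin n) : ℝ≥0∞ :=
  ⨅ (t : ℕ) (_ : walk u om t = v), (t : ℝ≥0∞)

/-- expected hitting time -/
noncomputable def hExp {n : ℕ} (G : Digraph (Fin n)) (u v : Fin n) : ℝ≥0∞ :=
  ∫⁻ om, hit u v om ∂(law G)

/-- maximal expected hitting time -/
noncomputable def hMax {n : ℕ} (G : Digraph (Fin n)) : ℝ≥0∞ := ⨆ (u : Fin n) (v : Fin n), hExp G u v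

/-- expected joint hitting time of `v` by `k` independent walks started at `u 0, ..., u (k-1)` -/
noncomputable def hJoint {n : ℕ} (G : Digraph (Fin n)) {k : ℕ} (u : Fin k → Fin n) (v : Fin n) :
    ℝ≥0∞ :=
  ∫⁻ om : Fin k → (ℕ → Fin n → Fin n), ⨅ i, hit (u i) v (om i) ∂(Measure.pi fun _ => law G)

/-- maximal expected joint hitting time of `k` walks -/
noncomputable def hMaxK {n : ℕ} (G : Digraph (Fin n)) (k : ℕ) : ℝ≥0∞ :=
  ⨆ (u : Fin k → Fin n) (v : Fin n), hJoint G u v

end Pool.Agent.R957.Par
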