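import Mathlib
import Pool.Agent.R957.Par.Defs

namespace Pool.Agent.R957.Par

open MeasureTheory Filter
open scoped ENNReal Topology

variable {n : ℕ} (G : Digraph (Fin n))

instance : IsProbabilityMeasure (mapLaw G) := by unfold mapLaw; infer_instance

instance : IsProbabilityMeasure (law G) := by unfold law; infer_instance

/-- prepend a map -/
def cons (F : Fin n → Fin n) (om : ℕ → Fin n → Fin n) : ℕ → Fin n → Fin n
  | 0 => F
  | t + 1 => om t

lemma walk_cons (u : Fin n) (F : Fin n → Fin n) (om : ℕ → Fin n → Fin n) (t : ℕ) :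
    walk u (cons F om) (t + 1) = walk (F u) om t := by
  induction t with
  | zero => rfl
  | succ t ih =>
    change cons F om (t + 1) (walk u (cons F om) (t + 1)) = _
    rw [ih]; rfl

lemma meas_cons : Measurable
    (fun x : (Fin n → Fin n) × (ℕ → Fin n → Fin n) => cons x.1 x.2) := by
  rw [measurable_pi_iff]
  intro a
  cases a with
  | zero => exact measurable_fst
  | succ t => exact (measurable_pi_apply t).comp measurable_snd

lemma map_cons : ((mapLaw G).prod (law G)).map
    (fun x : (Fin n → Fin n) × (ℕ → Fin n → Fin n) => cons x.1 x.2) = law G := by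
  unfold law
  apply Measure.eq_infinitePi
  intro s t ht
  classical
  obtain ⟨N, hN⟩ : ∃ N, s ⊆ Finset.range (N + 1) := by
    refine ⟨s.sup id, fun i hi => ?_⟩
    rw [Finset.mem_range]
    exact Nat.lt_succ_of_le (Finset.le_sup (f := id) hi)
  set t' : ℕ → Set (Fin n → Fin n) := fun i => if i ∈ s then t i else Set.univ with ht'
  have h1 : Set.pi (s : Set ℕ) t = Set.pi (Finset.range (N + 1) : Set ℕ) t' := by
    ext x
    simp only [Set.mem_pi, Finset.mem_coe]
    constructor
    · intro h i _
      simp only [ht']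
      split_ifs with hi
      · exact h i hi
      · trivial
    · intro h i hi
      have := h i (hN hi)
      simp only [ht', if_pos hi] at this
      exact this
  have h2 : ∏ i ∈ s, (mapLaw G) (t i) = ∏ i ∈ Finset.range (N + 1), (mapLaw G) (t' i) := by
    rw [← Finset.prod_subset hN]
    · apply Finset.prod_congr rfl
      intro i hi
      simp only [ht', if_pos hi]
    · intro i _ hi
      simp only [ht', if_neg hi, measure_univ]
  rw [h1, h2, Measure.map_apply meas_cons]
  · have h3 : (fun x : (Fin n → Fin n) × (ℕ → Fin n → Fin n) => cons x.1 x.2) ⁻¹'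
        (Set.pi (Finset.range (N + 1) : Set ℕ) t')
        = t' 0 ×ˢ Set.pi (Finset.range N : Set ℕ) (fun i => t' (i + 1)) := by
      ext x
      simp only [Set.mem_preimage, Set.mem_pi, Finset.mem_coe, Finset.mem_range, Set.mem_prod]
      constructor
      · intro h
        exact ⟨h 0 (by omega), fun i hi => h (i + 1) (by omega)⟩
      · rintro ⟨h0, h⟩ i hi
        cases i with
        | zero => exact h0
        | succ i => exact h i (by omega)
    rw [h3, Measure.prod_prod, Finset.prod_range_succ', mul_comm]
    congr 1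
    rw [Measure.infinitePi_pi]
    intro i _
    exact MeasurableSet.of_discrete
  · exact MeasurableSet.pi (Finset.countable_toSet _) fun i _ => MeasurableSet.of_discrete

lemma lint_cons {F : (ℕ → Fin n → Fin n) → ℝ≥0∞} (hF : Measurable F) :
    ∫⁻ om, F om ∂(law G) = ∫⁻ φ, ∫⁻ om, F (cons φ om) ∂(law G) ∂(mapLaw G) := by
  conv_lhs => rw [← map_cons]
  rw [lintegral_map hF meas_cons,
    lintegral_prod (fun x : (Fin n → Fin n) × (ℕ → Fin n → Fin n) => F (cons x.1 x.2))
      (hF.comp meas_cons).aemeasurable]

lemma lint_map (u : Fin n) (g : Fin n → ℝ≥0∞) :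
    ∫⁻ φ, g (φ u) ∂(mapLaw G) = ∑ w, stepLaw G u w * g w := by
  unfold mapLaw
  have h := (measurePreserving_eval (fun w => (stepLaw G w).toMeasure) u).lintegral_comp
    (f := g) Measurable.of_discrete
  simp only [Function.eval] at h
  rw [h, lintegral_fintype]
  apply Finset.sum_congr rfl
  intro w _
  rw [PMF.toMeasure_apply_singleton _ _ (MeasurableSet.singleton w), mul_comm]

lemma meas_walk (u : Fin n) (t : ℕ) : Measurable (fun om => walk u om t) := by
  induction t with
  | zero => exact measurable_const
  | succ t ih =>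
    have h1 : Measurable (fun x : (Fin n → Fin n) × Fin n => x.1 x.2) := Measurable.of_discrete
    exact h1.comp ((measurable_pi_apply t).prodMk ih)

/-- the event that `v` is not hit up to time `t` -/
def Alive (u v : Fin n) (t : ℕ) : Set (ℕ → Fin n → Fin n) := {om | ∀ s ≤ t, walk u om s ≠ v}

lemma meas_alive (u v : Fin n) (t : ℕ) : MeasurableSet (Alive u v t) := by
  have : Alive u v t = ⋂ s : ℕ, ⋂ (_ : s ≤ t), {om | walk u om s ≠ v} := by
    ext om; simp [Alive]
  rw [this]
  refine MeasurableSet.iInter fun s => MeasurableSet.iInter fun _ => ?_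
  exact (meas_walk u s) (MeasurableSet.of_discrete (s := {w | w ≠ v}))

/-- probability that `v` is not hit up to time `t` -/
noncomputable def q (v u : Fin n) (t : ℕ) : ℝ≥0∞ := law G (Alive u v t)

lemma q_le_one (v u : Fin n) (t : ℕ) : q G v u t ≤ 1 := prob_le_one

lemma q_self (v : Fin n) (t : ℕ) : q G v v t = 0 := by
  unfold q
  have : Alive v v t = ∅ := by
    ext om
    simp only [Alive, Set.mem_ofPred_eq, Set.mem_empty_iff_false, iff_false]
    intro h
    exact h 0 (Nat.zero_le _) rfl
  rw [this]; simp

lemma q_zero (v u : Fin n) (h : u ≠ v) : q G v u 0 = 1 := by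
  unfold q
  have : Alive u v 0 = Set.univ := by
    ext om
    simp only [Alive, Set.mem_ofPred_eq, Set.mem_univ, iff_true]
    intro s hs
    have : s = 0 := by omega
    subst this
    exact h
  rw [this]; simp

lemma q_succ (v u : Fin n) (t : ℕ) (h : u ≠ v) :
    q G v u (t + 1) = ∑ w, stepLaw G u w * q G v w t := by
  have h1 : q G v u (t + 1) = ∫⁻ om, (Alive u v (t + 1)).indicator 1 om ∂(law G) := by
    rw [lintegral_indicator_one (meas_alive u v _)]; rfl
  rw [h1, lint_cons G (measurable_one.indicator (meas_alive u v _)), ← lint_map G u]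
  apply lintegral_congr
  intro φ
  have h2 : ∀ om, (Alive u v (t + 1)).indicator (1 : (ℕ → Fin n → Fin n) → ℝ≥0∞) (cons φ om)
      = (Alive (φ u) v t).indicator 1 om := by
    intro om
    have h3 : cons φ om ∈ Alive u v (t + 1) ↔ om ∈ Alive (φ u) v t := by
      simp only [Alive, Set.mem_ofPred_eq]
      constructor
      · intro hh s hs
        have := hh (s + 1) (by omega)
        rwa [walk_cons] at this
      · intro hh s hs
        cases s with
        | zero => exact h
        | succ s =>
          rw [walk_cons]; exact hh s (by omega)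
    by_cases h4 : om ∈ Alive (φ u) v t
    · rw [Set.indicator_of_mem h4, Set.indicator_of_mem (h3.2 h4)]; rfl
    · rw [Set.indicator_of_notMem h4, Set.indicator_of_notMem (fun h5 => h4 (h3.1 h5))]
  simp_rw [h2]
  rw [lintegral_indicator_one (meas_alive _ v _)]; rfl

lemma q_succ_le (v u : Fin n) (t : ℕ) : q G v u (t + 1) ≤ ∑ w, stepLaw G u w * q G v w t := by
  by_cases h : u = v
  · rw [h, q_self]; exact zero_le
  · exact (q_succ G v u t h).le

lemma sum_step (u : Fin n) : ∑ w, stepLaw G u w = 1 := by
  have := (stepLaw G u).tsum_coe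
  rwa [tsum_fintype] at this

/-- pointwise formula for a first hitting time -/
lemma first_time (A : ℕ → Prop) [DecidablePred fun t => ∀ s ≤ t, ¬ A s] :
    (⨅ (t : ℕ) (_ : A t), (t : ℝ≥0∞)) = ∑' t, if ∀ s ≤ t, ¬ A s then (1 : ℝ≥0∞) else 0 := by
  classical
  by_cases h : ∃ t, A t
  · have hN := Nat.find_spec h
    set N := Nat.find h with hNdef
    have h1 : (⨅ (t : ℕ) (_ : A t), (t : ℝ≥0∞)) = N := by
      apply le_antisymm
      · exact iInf₂_le_of_le N hN le_rfl
      · refine le_iInf₂ fun t ht => ?_
        exact_mod_cast Nat.find_min' h ht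
    have h2 : ∀ t, (∀ s ≤ t, ¬ A s) ↔ t < N := by
      intro t
      constructor
      · intro hh
        by_contra hc
        exact hh N (not_lt.1 hc) hN
      · intro ht s hs
        exact Nat.find_min h (lt_of_le_of_lt hs ht)
    rw [h1, tsum_eq_sum (s := Finset.range N)]
    · rw [Finset.sum_congr rfl (g := fun _ => (1 : ℝ≥0∞))]
      · simp
      · intro t ht
        rw [if_pos ((h2 t).2 (Finset.mem_range.1 ht))]
    · intro t ht
      rw [if_neg]
      rw [h2]
      exact fun hc => ht (Finset.mem_range.2 hc)
  · push Not at h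
    have h1 : (⨅ (t : ℕ) (_ : A t), (t : ℝ≥0∞)) = ⊤ := by
      simp [h]
    have h2 : ∀ t, (∀ s ≤ t, ¬ A s) := fun t s _ => h s
    rw [h1, tsum_congr fun t => if_pos (h2 t), ENNReal.tsum_const_eq_top_of_ne_zero one_ne_zero]

lemma hExp_eq (u v : Fin n) : hExp G u v = ∑' t, q G v u t := by
  classical
  unfold hExp hit
  simp_rw [first_time]
  rw [lintegral_tsum]
  · apply tsum_congr
    intro t
    have : ∀ om, (if ∀ s ≤ t, ¬ walk u om s = v then (1 : ℝ≥0∞) else 0)
        = (Alive u v t).indicator 1 om := by
      intro om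
      rw [Set.indicator_apply]
      by_cases hh : om ∈ Alive u v t
      · rw [if_pos hh, if_pos (show ∀ s ≤ t, ¬ walk u om s = v from hh)]; rfl
      · rw [if_neg hh, if_neg (show ¬ ∀ s ≤ t, ¬ walk u om s = v from hh)]
    simp_rw [this]
    rw [lintegral_indicator_one (meas_alive u v t)]; rfl
  · intro t
    apply Measurable.aemeasurable
    exact Measurable.ite (meas_alive u v t) measurable_const measurable_const

lemma hJoint_eq {k : ℕ} (u : Fin k → Fin n) (v : Fin n) :
    hJoint G u v = ∑' t, ∏ i, q G v (u i) t := by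
  classical
  unfold hJoint hit
  have h1 : ∀ om : Fin k → (ℕ → Fin n → Fin n),
      (⨅ i, ⨅ (t : ℕ) (_ : walk (u i) (om i) t = v), (t : ℝ≥0∞))
      = ∑' t, (Set.pi Set.univ fun i => Alive (u i) v t).indicator 1 om := by
    intro om
    have h2 : (⨅ i, ⨅ (t : ℕ) (_ : walk (u i) (om i) t = v), (t : ℝ≥0∞))
        = ⨅ (t : ℕ) (_ : ∃ i, walk (u i) (om i) t = v), (t : ℝ≥0∞) := by
      rw [iInf_comm]
      apply iInf_congr
      intro t
      rw [iInf_exists]
    rw [h2, first_time (fun t => ∃ i, walk (u i) (om i) t = v)]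
    apply tsum_congr
    intro t
    rw [Set.indicator_apply]
    have h3 : (∀ s ≤ t, ¬ ∃ i, walk (u i) (om i) s = v)
        ↔ om ∈ Set.pi Set.univ fun i => Alive (u i) v t := by
      simp only [Set.mem_pi, Set.mem_univ, true_implies, Alive, Set.mem_ofPred_eq]
      constructor
      · intro hh i s hs hc
        exact hh s hs ⟨i, hc⟩
      · rintro hh s hs ⟨i, hc⟩
        exact hh i s hs hc
    simp only [h3]
    rfl
  simp_rw [h1]
  rw [lintegral_tsum]
  · apply tsum_congr
    intro t
    rw [lintegral_indicator_one (MeasurableSet.univ_pi fun i => meas_alive (u i) v t),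
      Measure.pi_pi]
    rfl
  · intro t
    exact (measurable_one.indicator (MeasurableSet.univ_pi fun i => meas_alive (u i) v t)).aemeasurable

/-- the tail sum is controlled by the maximal expected hitting time -/
lemma tail_le (v : Fin n) (H : ℝ≥0∞) (hH : ∀ w, hExp G w v ≤ H) (t : ℕ) :
    ∀ u, ∑' s, q G v u (t + s) ≤ q G v u t * H := by
  induction t with
  | zero =>
    intro u
    simp only [zero_add]
    by_cases h : u = v
    · rw [h]; simp [q_self]
    · rw [q_zero G v u h, one_mul, ← hExp_eq]; exact hH u
  | succ t ih =>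
    intro u
    by_cases h : u = v
    · rw [h]; simp [q_self]
    · rw [q_succ G v u t h, Finset.sum_mul]
      have h1 : ∀ s, q G v u (t + 1 + s) = ∑ w, stepLaw G u w * q G v w (t + s) := by
        intro s
        have : t + 1 + s = (t + s) + 1 := by ring
        rw [this, q_succ G v u _ h]
      simp_rw [h1]
      rw [Summable.tsum_finsetSum (fun _ _ => ENNReal.summable)]
      apply Finset.sum_le_sum
      intro w _
      rw [ENNReal.tsum_mul_left, mul_assoc]
      gcongr
      exact ih w

end Pool.Agent.R957.Par
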