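import Mathlib
import Pool.Agent.R957.Par.Prob
import Pool.Agent.R957.Par.Analytic

namespace Pool.Agent.R957.Par

open MeasureTheory Filter
open scoped ENNReal Topology

variable {n : ℕ} (G : Digraph (Fin n))

lemma q_antitone (v u : Fin n) : Antitone (q G v u) := by
  intro s t hst
  apply measure_mono
  intro om hom r hr
  exact hom r (hr.trans hst)

/-- finite horizon tail bound -/
lemma tail_fin (v : Fin n) (T : ℕ) (B : ℝ≥0∞) (hB : ∀ w, ∑ s ∈ Finset.range T, q G v w s ≤ B)
    (t : ℕ) : ∀ u, ∑ s ∈ Finset.range T, q G v u (t + s) ≤ q G v u t * B := by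
  induction t with
  | zero =>
    intro u
    simp only [zero_add]
    by_cases h : u = v
    · rw [h]; simp [q_self]
    · rw [q_zero G v u h, one_mul]; exact hB u
  | succ t ih =>
    intro u
    by_cases h : u = v
    · rw [h]; simp [q_self]
    · rw [q_succ G v u t h, Finset.sum_mul]
      have h1 : ∀ s, q G v u (t + 1 + s) = ∑ w, stepLaw G u w * q G v w (t + s) := by
        intro s
        have : t + 1 + s = (t + s) + 1 := by ring
        rw [this, q_succ G v u _ h]
      simp_rw [h1]
      rw [Finset.sum_comm]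
      apply Finset.sum_le_sum
      intro w _
      rw [← Finset.mul_sum, mul_assoc]
      gcongr
      exact ih w

lemma stepLaw_pos {u w : Fin n} (h : G.Adj u w) : 0 < stepLaw G u w := by
  classical
  have hw : w ∈ outN G u := by simp [outN, h]
  have hne : (outN G u).Nonempty := ⟨w, hw⟩
  unfold stepLaw
  rw [dif_pos hne, PMF.uniformOfFinset_apply, if_pos hw]
  simp

lemma exists_lt_one (v : Fin n) (hG : ∀ a b, Relation.ReflTransGen G.Adj a b) (u : Fin n) :
    ∃ t, q G v u t < 1 := by
  refine Relation.ReflTransGen.head_induction_on (motive := fun a _ => ∃ t, q G v a t < 1)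
    (hG u v) ⟨0, by rw [q_self]; exact one_pos⟩ ?_
  rintro a b hab - ⟨t, ht⟩
  refine ⟨t + 1, lt_of_le_of_lt (q_succ_le G v a t) ?_⟩
  have hpos : stepLaw G a b ≠ 0 := (stepLaw_pos G hab).ne'
  have htop : ∀ w, stepLaw G a w ≠ ⊤ := fun w => (stepLaw G a).apply_ne_top w
  have h1 : ∑ w ∈ Finset.univ.erase b, stepLaw G a w ≠ ⊤ := by
    rw [ENNReal.sum_ne_top]; exact fun w _ => htop w
  have h2 : ∑ w ∈ Finset.univ.erase b, stepLaw G a w * q G v w t
      ≤ ∑ w ∈ Finset.univ.erase b, stepLaw G a w := by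
    apply Finset.sum_le_sum
    intro w _
    exact mul_le_of_le_one_right' (q_le_one G v w t)
  have h3 : stepLaw G a b * q G v b t < stepLaw G a b := by
    calc stepLaw G a b * q G v b t < stepLaw G a b * 1 :=
          (ENNReal.mul_lt_mul_iff_right hpos (htop b)).2 ht
      _ = stepLaw G a b := mul_one _
  calc ∑ w, stepLaw G a w * q G v w t
      = stepLaw G a b * q G v b t + ∑ w ∈ Finset.univ.erase b, stepLaw G a w * q G v w t :=
        (Finset.add_sum_erase _ _ (Finset.mem_univ b)).symm
    _ < stepLaw G a b + ∑ w ∈ Finset.univ.erase b, stepLaw G a w :=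
        ENNReal.add_lt_add_of_lt_of_le (ne_top_of_le_ne_top h1 h2) h3 h2
    _ = ∑ w, stepLaw G a w := Finset.add_sum_erase _ _ (Finset.mem_univ b)
    _ = 1 := sum_step G a

/-- expected hitting times are finite in a strongly connected graph -/
lemma hExp_lt_top (v : Fin n) (hG : ∀ a b, Relation.ReflTransGen G.Adj a b) (u : Fin n) :
    hExp G u v < ⊤ := by
  have : Nonempty (Fin n) := ⟨u⟩
  choose T hT using exists_lt_one G v hG
  -- a common time
  set N := (∑ w, T w) + 1 with hN
  have hN1 : ∀ w, q G v w N < 1 := fun w => lt_of_le_of_lt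
    (q_antitone G v w ((Finset.single_le_sum (fun i _ => Nat.zero_le (T i))
      (Finset.mem_univ w)).trans (Nat.le_succ _))) (hT w)
  obtain ⟨z, hz⟩ := Finite.exists_max fun w => q G v w N
  set r := q G v z N with hr
  have hr1 : r < 1 := hN1 z
  have hr0 : (1 - r) ≠ 0 := (tsub_pos_of_lt hr1).ne'
  have hrt : (1 - r) ≠ ⊤ := ne_top_of_le_ne_top ENNReal.one_ne_top tsub_le_self
  set B : ℝ≥0∞ := (N : ℝ≥0∞) * (1 - r)⁻¹ with hB
  have hBtop : B < ⊤ := by
    rw [hB]
    exact ENNReal.mul_lt_top (ENNReal.natCast_lt_top N) (ENNReal.inv_lt_top.2 (tsub_pos_of_lt hr1))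
  have hBN : (N : ℝ≥0∞) + r * B = B := by
    have h1 : (1 - r) * B = N := by
      rw [hB, mul_comm, mul_assoc, ENNReal.inv_mul_cancel hr0 hrt, mul_one]
    have h2 : (1 - r) + r = 1 := tsub_add_cancel_of_le hr1.le
    calc (N : ℝ≥0∞) + r * B = ((1 - r) + r) * B := by rw [add_mul, h1]
      _ = B := by rw [h2, one_mul]
  have hfin : ∀ T' : ℕ, ∀ w, ∑ s ∈ Finset.range T', q G v w s ≤ B := by
    intro T'
    induction T' using Nat.strong_induction_on with
    | _ T' ih =>
      intro w
      have hle : ∀ L : ℕ, ∑ s ∈ Finset.range L, q G v w s ≤ L := by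
        intro L
        calc ∑ s ∈ Finset.range L, q G v w s ≤ ∑ s ∈ Finset.range L, 1 :=
              Finset.sum_le_sum fun s _ => q_le_one G v w s
          _ = L := by simp
      rcases le_or_gt T' N with h | h
      · calc ∑ s ∈ Finset.range T', q G v w s ≤ T' := hle T'
          _ ≤ N := by exact_mod_cast h
          _ ≤ (N : ℝ≥0∞) + r * B := le_self_add
          _ = B := hBN
      · obtain ⟨L, rfl⟩ : ∃ L, T' = N + L := ⟨T' - N, by omega⟩
        rw [Finset.sum_range_add]
        have h1 := tail_fin G v L B (ih L (by omega)) N w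
        calc ∑ s ∈ Finset.range N, q G v w s + ∑ s ∈ Finset.range L, q G v w (N + s)
            ≤ N + q G v w N * B := add_le_add (hle N) h1
          _ ≤ N + r * B := by gcongr; exact hz w
          _ = B := hBN
  rw [hExp_eq]
  exact lt_of_le_of_lt (ENNReal.tsum_le_of_sum_range_le fun L => hfin L u) hBtop

/-- the main inequality for a fixed target -/
theorem main_v (v : Fin n) (hG : ∀ a b, Relation.ReflTransGen G.Adj a b) (m : ℕ) (u : Fin n) :
    hExp G u v ≤ ((m + 1 : ℕ) : ℝ≥0∞) * hMaxK G (m + 1) := by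
  have : Nonempty (Fin n) := ⟨u⟩
  obtain ⟨z, hz⟩ := Finite.exists_max fun w => hExp G w v
  refine (hz u).trans ?_
  have hH : hExp G z v < ⊤ := hExp_lt_top G v hG z
  have h1 : hJoint G (fun _ : Fin (m + 1) => z) v ≤ hMaxK G (m + 1) := by
    unfold hMaxK
    exact le_iSup₂_of_le (fun _ => z) v le_rfl
  refine le_trans ?_ (mul_le_mul_right h1 _)
  rw [hJoint_eq]
  simp only [Finset.prod_const, Finset.card_univ, Fintype.card_fin]
  -- pass to real numbers
  set a : ℕ → ℝ := fun t => (q G v z t).toReal with ha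
  have hqt : ∀ t, q G v z t ≠ ⊤ := fun t => ne_top_of_le_ne_top ENNReal.one_ne_top (q_le_one G v z t)
  have hsumtop : ∑' t, q G v z t ≠ ⊤ := by rw [← hExp_eq]; exact hH.ne
  have ha0 : ∀ t, 0 ≤ a t := fun t => ENNReal.toReal_nonneg
  have ha1 : ∀ t, a t ≤ 1 := by
    intro t
    have := ENNReal.toReal_mono ENNReal.one_ne_top (q_le_one G v z t)
    simpa using this
  have hs : Summable a := ENNReal.summable_toReal hsumtop
  have hsk : Summable fun t => a t ^ (m + 1) := by
    apply Summable.of_nonneg_of_le (fun t => pow_nonneg (ha0 t) _) _ hs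
    intro t
    exact pow_le_of_le_one (ha0 t) (ha1 t) (Nat.succ_ne_zero m)
  have hofq : ∀ t, q G v z t = ENNReal.ofReal (a t) := fun t => (ENNReal.ofReal_toReal (hqt t)).symm
  have hsum : hExp G z v = ENNReal.ofReal (∑' t, a t) := by
    rw [hExp_eq, ENNReal.ofReal_tsum_of_nonneg ha0 hs]
    exact tsum_congr hofq
  have hsumk : ∑' t, q G v z t ^ (m + 1) = ENNReal.ofReal (∑' t, a t ^ (m + 1)) := by
    rw [ENNReal.ofReal_tsum_of_nonneg (fun t => pow_nonneg (ha0 t) _) hsk]
    apply tsum_congr
    intro t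
    rw [hofq t, ENNReal.ofReal_pow (ha0 t)]
  have hR : ∀ t, ∑' s, a (t + s) ≤ (∑' s, a s) * a t := by
    intro t
    have h2 := tail_le G v (hExp G z v) (fun w => hz w) t z
    have h3 : Summable fun s => a (t + s) := by
      simpa [add_comm] using (summable_nat_add_iff t).2 hs
    have h4 : ∑' s, q G v z (t + s) = ENNReal.ofReal (∑' s, a (t + s)) := by
      rw [ENNReal.ofReal_tsum_of_nonneg (fun s => ha0 _) h3]
      exact tsum_congr fun s => hofq _
    rw [h4, hsum, hofq t, ← ENNReal.ofReal_mul (ha0 t)] at h2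
    have h5 : 0 ≤ a t * ∑' s, a s := mul_nonneg (ha0 t) (tsum_nonneg ha0)
    have h6 := (ENNReal.ofReal_le_ofReal_iff h5).1 h2
    rw [mul_comm]; exact h6
  have hfin := tail_ineq a ha0 hs m hsk hR
  rw [hsum, hsumk]
  calc ENNReal.ofReal (∑' t, a t) ≤ ENNReal.ofReal ((m + 1) * ∑' t, a t ^ (m + 1)) :=
        ENNReal.ofReal_le_ofReal hfin
    _ = ((m + 1 : ℕ) : ℝ≥0∞) * ENNReal.ofReal (∑' t, a t ^ (m + 1)) := by
        rw [ENNReal.ofReal_mul (by positivity)]
        congr 1
        rw [← Nat.cast_succ, ENNReal.ofReal_natCast]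

theorem main (hG : ∀ a b, Relation.ReflTransGen G.Adj a b) (k : ℕ) (hk : 1 ≤ k) :
    hMax G ≤ (k : ℝ≥0∞) * hMaxK G k := by
  obtain ⟨m, rfl⟩ : ∃ m, k = m + 1 := ⟨k - 1, by omega⟩
  unfold hMax
  exact iSup₂_le fun u v => main_v G v hG m u

theorem hMax_lt_top (hG : ∀ a b, Relation.ReflTransGen G.Adj a b) : hMax G < ⊤ := by
  unfold hMax
  rcases isEmpty_or_nonempty (Fin n) with h | h
  · simp
  · obtain ⟨z, hz⟩ := Finite.exists_max fun x : Fin n × Fin n => hExp G x.1 x.2
    refine lt_of_le_of_lt (iSup₂_le fun u v => hz (u, v)) (hExp_lt_top G _ hG _)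

/-- the finite dimensional laws of the walk are those of the simple random walk -/
theorem cylinder (u : Fin n) (t : ℕ) (x : ℕ → Fin n) (hx : x 0 = u) :
    law G {om | ∀ s ≤ t, walk u om s = x s}
      = ∏ s ∈ Finset.range t, stepLaw G (x s) (x (s + 1)) := by
  have h1 : {om : ℕ → Fin n → Fin n | ∀ s ≤ t, walk u om s = x s}
      = Set.pi (Finset.range t : Set ℕ) fun s => {F | F (x s) = x (s + 1)} := by
    ext om
    simp only [Set.mem_ofPred_eq, Set.mem_pi, Finset.mem_coe, Finset.mem_range]
    constructor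
    · intro h s hs
      have h2 := h (s + 1) (by omega)
      have h3 := h s (by omega)
      rw [walk, h3] at h2
      exact h2
    · intro h s hs
      induction s with
      | zero => exact hx.symm
      | succ s ih =>
        rw [walk, ih (by omega)]
        exact h s (by omega)
  rw [h1]
  unfold law
  rw [Measure.infinitePi_pi _ fun i _ => MeasurableSet.of_discrete]
  apply Finset.prod_congr rfl
  intro s _
  unfold mapLaw
  have h2 := (measurePreserving_eval (fun w => (stepLaw G w).toMeasure) (x s)).measure_preimage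
    (s := {x (s + 1)}) (MeasurableSet.singleton _).nullMeasurableSet
  rw [PMF.toMeasure_apply_singleton _ _ (MeasurableSet.singleton _)] at h2
  rw [← h2]
  rfl

end Pool.Agent.R957.Par
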